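import Pool.Agent.H31.SGam

set_option autoImplicit false

open Pool.Agent.H31.SGam Filter

theorem Pool.Agent.Results.MP_b9e574_gt.Main.result (X : Type*) [TopologicalSpace X] :
    (∀ 𝒰 : ℕ → Set (Set X), (∀ n, O (n + 1) (𝒰 n)) →
      ∃ U : ℕ → Set X, (∀ n, U n ∈ 𝒰 n) ∧ ∀ x, ∀ᶠ n in atTop, x ∈ U n) ↔
    (∀ σ : List (Set X) → Set (Set X),
      (∀ (U : ℕ → Set X) (n : ℕ), (∀ k < n, U k ∈ σ ((List.range k).map U)) →
        O (n + 1) (σ ((List.range n).map U))) →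
      ∃ U : ℕ → Set X, (∀ n, U n ∈ σ ((List.range n).map U)) ∧ ∀ x, ∀ᶠ n in atTop, x ∈ U n) :=
  ⟨fun h => game h, fun h 𝒰 h1 => by
    simpa using h (fun l => 𝒰 l.length) fun _ n _ => by simpa using h1 n⟩
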